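import Pool.Agent.H240.IX.DefG
import Pool.Agent.H240.CG.Pert

/-!
# `IX-11`: perturbations of a profile away from its flat part
-/

set_option autoImplicit false
set_option linter.unusedSectionVars false

open Set Filter Topology MeasureTheory
open scoped ContDiff ComplexConjugate Real

noncomputable section

namespace Pool.Agent.H357.IX

open Pool.Agent.Y262.EG Pool.Agent.Y262.EX Pool.Agent.Y262.EL Pool.Agent.Y262.QE
open Pool.Agent.Y264.QR Pool.Agent.H240.SC Pool.Agent.H240.SG Pool.Agent.H240.CG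
open Pool.Agent.H240.IX

/-- the derivative of a function which vanishes on a closed interval vanishes there -/
theorem der_near {P : ℝ → ℝ} (hP : ContDiff ℝ ∞ P) {α : ℝ} (hα : 0 < α)
    (h : ∀ x, |x - L0 / 2| ≤ α → P x = 0) : ∀ x, |x - L0 / 2| ≤ α → deriv P x = 0 := by
  have hc : Continuous (deriv P) := (contDiff_infty_iff_deriv.1 hP).2.continuous
  have hin : ∀ x ∈ Ioo (L0 / 2 - α) (L0 / 2 + α), deriv P x = 0 := by
    intro x hx
    have h1 : P =ᶠ[𝓝 x] fun _ => (0 : ℝ) := by
      filter_upwards [isOpen_Ioo.mem_nhds hx] with y hy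
      refine h y ?_
      rw [abs_le]
      constructor <;> linarith [hy.1, hy.2]
    rw [h1.deriv_eq]
    simp
  intro x hx
  have hx' : x ∈ closure (Ioo (L0 / 2 - α) (L0 / 2 + α)) := by
    rw [closure_Ioo (by linarith)]
    have h1 := abs_le.1 hx
    exact ⟨by linarith [h1.1], by linarith [h1.2]⟩
  have hcl : IsClosed {y : ℝ | deriv P y = 0} := isClosed_eq hc continuous_const
  exact closure_minimal (t := {y : ℝ | deriv P y = 0}) hin hcl hx'

theorem stRad : StRad := by
  intro g X G P c1 C0 c r m C e α ρ N hg hX h hR hrα hρ hρ1 hρm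
  have h0 := L0p
  have hC := h.Cp
  obtain ⟨K0, hK0, k0⟩ := bdd_der hR.sm (c := e) hR.far (max N 3)
  set K : ℝ := K0 + 1 with hK
  have hKp : 0 < K := by positivity
  have p1 := (contDiff_infty_iff_deriv.1 hR.sm).2
  have p2 := (contDiff_infty_iff_deriv.1 p1).2
  have n1 := der_near hR.sm hR.αp hR.near
  have n2 := der_near p1 hR.αp n1
  have n3 := der_near p2 hR.αp n2
  have b2 : ∀ x, |deriv (deriv P) x| ≤ K := by
    intro x
    have h1 := k0 2 (le_trans (by norm_num) (le_max_right _ _)) x
    rw [iteratedDeriv_succ, iteratedDeriv_one] at h1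
    linarith
  have b3 : ∀ x, |deriv (deriv (deriv P)) x| ≤ K := by
    intro x
    have h1 := k0 3 (le_max_right _ _) x
    rw [iteratedDeriv_succ, iteratedDeriv_succ, iteratedDeriv_one] at h1
    linarith
  have g2 := deriv_smooth (deriv_smooth h.sm)
  -- the lower bound of the second derivative
  have hlow : ∃ y0 : ℝ, 0 < y0 ∧ ∀ x, α ≤ |x - L0 / 2| → |x - L0 / 2| ≤ 4 / 5 * L0 →
      y0 ≤ deriv (deriv G) x := by
    set Kc : Set ℝ := {x : ℝ | α ≤ |x - L0 / 2| ∧ |x - L0 / 2| ≤ 4 / 5 * L0} with hKc'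
    have hKc : IsCompact Kc := by
      refine isCompact_Icc.of_isClosed_subset (s := Icc (-(2 * L0)) (3 * L0)) ?_ ?_
      · have k1 : IsClosed {x : ℝ | α ≤ |x - L0 / 2|} :=
          isClosed_le continuous_const (by fun_prop)
        have k2 : IsClosed {x : ℝ | |x - L0 / 2| ≤ 4 / 5 * L0} :=
          isClosed_le (by fun_prop) continuous_const
        exact k1.inter k2
      · intro x hx
        have := abs_le.1 hx.2
        exact ⟨by linarith [this.1], by linarith [this.2]⟩
    have hKI : Kc ⊆ I0 := fun x hx => mem_I0 (by linarith [hx.2])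
    rcases Kc.eq_empty_or_nonempty with he | hne
    · refine ⟨1, one_pos, fun x h1 h2 => ?_⟩
      have hx : x ∈ Kc := ⟨h1, h2⟩
      rw [he] at hx
      exact absurd hx (notMem_empty x)
    · obtain ⟨xm, hxm, hmin⟩ := hKc.exists_isMinOn hne (g2.continuousOn.mono hKI)
      refine ⟨deriv (deriv G) xm, ?_, fun x h1 h2 => hmin ⟨h1, h2⟩⟩
      refine lt_of_le_of_ne (h.cvxI hg (hKI hxm)) fun hcon => ?_
      have h1 := h.zeroI hg (hKI hxm) hcon.symm
      linarith [hxm.1]
  obtain ⟨y0, hy0, hy⟩ := hlow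
  set Y : ℝ := y0 ^ (39 / 40 : ℝ) with hY
  have hYp : 0 < Y := Real.rpow_pos_of_pos hy0 _
  set s1 : ℝ := min (ρ / K) (min (ρ * y0 / (2 * (C + 1) * K)) (ρ * Y / (2 * K))) with hs1
  have hs1p : 0 < s1 := by positivity
  refine ⟨s1, hs1p, fun s hs => ?_⟩
  have hsa : |s| ≤ ρ / K := hs.le.trans (min_le_left _ _)
  have hsb : |s| ≤ ρ * y0 / (2 * (C + 1) * K) :=
    hs.le.trans ((min_le_right _ _).trans (min_le_left _ _))
  have hsc : |s| ≤ ρ * Y / (2 * K) := hs.le.trans ((min_le_right _ _).trans (min_le_right _ _))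
  rw [le_div_iff₀ (by positivity)] at hsa hsb hsc
  have hs0 := abs_nonneg s
  -- the relative size
  set η : ℝ := |s| * K / y0 with hη
  have hη0 : 0 ≤ η := by positivity
  have hηy : η * y0 = |s| * K := by
    rw [hη]
    field_simp
  have hη2 : η * (2 * (C + 1)) ≤ ρ := by
    rw [hη, div_mul_eq_mul_div, div_le_iff₀ hy0]
    linarith
  have hηρ : η ≤ ρ / 2 := by nlinarith
  have sP2 : ∀ x, |s * deriv (deriv P) x| ≤ |s| * K := fun x => by
    rw [abs_mul]
    exact mul_le_mul_of_nonneg_left (b2 x) hs0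
  have sP3 : ∀ x, |s * deriv (deriv (deriv P)) x| ≤ |s| * K := fun x => by
    rw [abs_mul]
    exact mul_le_mul_of_nonneg_left (b3 x) hs0
  set F : ℝ → ℝ := fun x => G x + s * P x with hF
  have hF1 : ∀ x ∈ I0, F x = 1 * (G x + s * P x) := fun x _ => by rw [one_mul]
  obtain ⟨-, D2, D3⟩ := d_three I0_open (fun x hx => hx) h.sm hR.sm 1 s hF1
  have hmem : ∀ x, |x - L0 / 2| < 4 / 5 * L0 → x ∈ I0 := fun x hx => mem_I0 (by linarith)
  -- the second derivative
  have hlo : ∀ x, |x - L0 / 2| < 4 / 5 * L0 →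
      (1 - η) * deriv (deriv G) x ≤ deriv (deriv F) x := by
    intro x hx
    rw [D2 x (hmem x hx), one_mul]
    have hG0 := h.cvx x hx
    rcases le_or_gt (|x - L0 / 2|) α with h1 | h1
    · rw [n2 x h1, mul_zero, add_zero]
      nlinarith
    · have h2 := hy x h1.le hx.le
      have h3 := (abs_le.1 (sP2 x)).1
      nlinarith
  have hcv : ∀ x, |x - L0 / 2| < 4 / 5 * L0 → 0 ≤ deriv (deriv F) x := by
    intro x hx
    have h1 := hlo x hx
    have hG0 := h.cvx x hx
    nlinarith
  constructor
  · refine ⟨h.rp, h.rL, by linarith, by linarith, ?_, ?_, ?_, hcv, ?_, ?_, ?_⟩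
    · exact h.sm.add (contDiff_const.mul hR.sm).contDiffOn
    · intro x hx
      simp only [hF]
      rw [h.far x hx, hR.far x hx]
      ring
    · intro x hx
      simp only [hF]
      rw [h.flat x hx, hR.near x (hx.trans hrα.le)]
      ring
    · intro x hx hz
      refine h.zero x hx ?_
      have h1 := hlo x hx
      rw [hz] at h1
      have hG0 := h.cvx x hx
      nlinarith
    · intro x h1 h2
      rw [D2 x (mem_I0 (by linarith)), one_mul]
      have h3 := (abs_le.1 (sP2 x)).1
      have h4 := h.mid x h1 h2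
      linarith
    · intro x hx
      have hG0 := h.cvx x hx
      have hGd := h.der x hx
      rcases le_or_gt (|x - L0 / 2|) α with h1 | h1
      · rw [D2 x (hmem x hx), D3 x (hmem x hx), one_mul, one_mul, n2 x h1, n3 x h1, mul_zero,
          add_zero, add_zero]
        refine hGd.trans (mul_le_mul_of_nonneg_right (by linarith) (Real.rpow_nonneg hG0 _))
      · have h2 := hy x h1.le hx.le
        have h3 := hlo x hx
        set y : ℝ := deriv (deriv G) x with hyy
        have hy1 : Y ≤ y ^ (39 / 40 : ℝ) := Real.rpow_le_rpow hy0.le h2 (by norm_num)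
        set T : ℝ := y ^ (39 / 40 : ℝ) with hT
        have hT0 : 0 < T := lt_of_lt_of_le hYp hy1
        have hη1 : 0 < 1 - η := by linarith
        have h4 : (1 - η) * T ≤ (deriv (deriv F) x) ^ (39 / 40 : ℝ) := by
          calc (1 - η) * T ≤ (1 - η) ^ (39 / 40 : ℝ) * T := by
                refine mul_le_mul_of_nonneg_right ?_ hT0.le
                calc (1 - η) = (1 - η) ^ (1 : ℝ) := (Real.rpow_one _).symm
                  _ ≤ (1 - η) ^ (39 / 40 : ℝ) :=
                    Real.rpow_le_rpow_of_exponent_ge hη1 (by linarith) (by norm_num)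
            _ = ((1 - η) * y) ^ (39 / 40 : ℝ) := by rw [hT, Real.mul_rpow hη1.le hG0]
            _ ≤ _ := Real.rpow_le_rpow (mul_nonneg hη1.le hG0) h3 (by norm_num)
        have h5 : |deriv (deriv (deriv F)) x| ≤ C * T + |s| * K := by
          rw [D3 x (hmem x hx), one_mul]
          exact (abs_add_le _ _).trans (add_le_add hGd (sP3 x))
        have h6 : |s| * K ≤ ρ / 2 * T := by
          have h7 : |s| * K ≤ ρ / 2 * Y := by linarith
          exact h7.trans (mul_le_mul_of_nonneg_left hy1 (by positivity))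
        have h8 : η * (C + ρ) ≤ ρ / 2 := by nlinarith
        calc |deriv (deriv (deriv F)) x| ≤ C * T + |s| * K := h5
          _ ≤ (C + ρ / 2) * T := by linarith
          _ ≤ ((C + ρ) * (1 - η)) * T := mul_le_mul_of_nonneg_right (by linarith) hT0.le
          _ = (C + ρ) * ((1 - η) * T) := by ring
          _ ≤ _ := mul_le_mul_of_nonneg_left h4 (by linarith)
  · refine ⟨fun x => rfl, contDiff_const.mul hR.sm, ?_, ?_, ?_⟩
    · intro n hn x
      rw [iteratedDeriv_const_mul_field, abs_mul]
      have h1 := k0 n (hn.trans (le_max_left _ _)) x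
      calc |s| * |iteratedDeriv n P x| ≤ |s| * K := mul_le_mul_of_nonneg_left (by linarith) hs0
        _ ≤ ρ := hsa
    · intro x hx
      show s * P x = s * e
      rw [hR.far x hx]
    · intro x hx
      refine le_trans ?_ (hlo x hx)
      refine mul_le_mul_of_nonneg_right (by linarith) (h.cvx x hx)

end Pool.Agent.H357.IX
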